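import Mathlib
import Pool.Agent.Helper47.ReconDefs
import Pool.Agent.Helper37.RT.Final

/-!
Problem MP_b01677_an, Q1 (and Q2): magnified copies of an arbitrary bounded measurable set of
positive measure in `ℝ^d`, `d ≥ 2`, can be reconstructed using `d + 1` test sets.
-/

namespace Pool.Agent.Results.MP_b01677_an.DPlusOneTestSets

open MeasureTheory Pool.Agent.Helper47.Recon

/-- For every `d ≥ 2` and every bounded Lebesgue measurable `E ⊆ ℝ^d` of positive measure, an
element of `M(E)` can be reconstructed using `d + 1` test sets. -/
theorem result (d : ℕ) (hd : 2 ≤ d) (E : Set (Fin d → ℝ)) (hb : Bornology.IsBounded E)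
    (hE : NullMeasurableSet E volume) (hpos : 0 < volume E) :
    CanReconstruct (magnifiedCopies E) (d + 1) :=
  Pool.Agent.Helper37.RT.recon_all d hd E hb hE hpos

end Pool.Agent.Results.MP_b01677_an.DPlusOneTestSets
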